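import Mathlib
import Pool.Agent.V11115.TreeDP

/-!
For every tree `T` on `n` vertices some set `U` of vertices has at least `4n/5` external or self
private neighbours, and the constant `4/5` is best possible.
-/

namespace Pool.Agent.Results.MP_0d27c8_co.FourFifths

open SimpleGraph V11115

/-- The number of vertices that are external or self private neighbours with respect to `U`:
vertices outside `U` with exactly one neighbour in `U`, and vertices of `U` with no neighbour
in `U`. -/
def espnOf {V : Type} [Fintype V] [DecidableEq V] (G : SimpleGraph V) [DecidableRel G.Adj]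
    (U : Finset V) : ℕ :=
  (Finset.univ.filter (fun w => w ∉ U ∧ (G.neighborFinset w ∩ U).card = 1)).card +
    (Finset.univ.filter (fun w => w ∈ U ∧ (G.neighborFinset w ∩ U).card = 0)).card

/-- `ESPN(G)`. -/
def espn {V : Type} [Fintype V] [DecidableEq V] (G : SimpleGraph V) [DecidableRel G.Adj] : ℕ :=
  Finset.univ.sup (fun U : Finset V => espnOf G U)

/-- Table of the profiles of rooted subtrees. -/
def tabW : List (List ℤ) :=
  [[-4, 1, 1, -4],
   [2, -3, 2, -3],
   [-2, -2, 3, -2],
   [4, -1, -1, -6],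
   [0, 0, 0, -5],
   [6, 1, -4, -9],
   [2, 2, -3, -8],
   [8, 3, -7, -12],
   [4, 4, -6, -11],
   [10, 5, -1000, -1000],
   [6, 6, -1000, -1000]]

/-- Table of the profiles of partial vertices. -/
def tabP : List (List ℤ) :=
  [[0, -1000, 0, -1000, -1000],
   [1, -4, -4, 1, -1000],
   [-3, -3, 2, 2, -1000],
   [2, -3, -8, -3, 2],
   [-2, -2, -2, 3, -1000],
   [-1, -6, 4, -1, -1000],
   [-1, -1, -6, -1, 4],
   [-6, -6, 4, 4, 4],
   [-5, -5, 0, 5, 5],
   [-4, -4, 6, 6, 1],
   [3, -2, -12, -7, 3],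
   [0, 0, -10, -5, 5],
   [-4, -4, -4, 1, 6],
   [-2, -7, 8, 3, -2],
   [-3, -3, -8, -3, 7],
   [-9, -9, 6, 6, 6],
   [-8, -8, 2, 7, 7],
   [-7, -7, -2, 3, 8],
   [4, -1, -1000, -11, 4],
   [1, 1, -1000, -9, 6],
   [-2, -2, -1000, -7, 8],
   [-6, -6, -6, -1, 9],
   [-3, -1000, 12, 7, 2],
   [-5, -5, -1000, -5, 10],
   [-1000, -1000, 8, 8, 8],
   [-1000, -1000, 4, 9, 9],
   [-1000, -1000, 0, 5, 10],
   [-1000, -1000, -4, 1, 11],
   [5, 0, -1000, -1000, 5],
   [2, 2, -1000, -1000, 7],
   [-1, -1, -1000, -1000, 9],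
   [-4, -4, -1000, -1000, 11],
   [-1000, -1000, -1000, -3, 12],
   [-1000, -1000, 16, 11, 6],
   [-1000, -1000, -1000, -1000, 13]]

/-- Table of steps. -/
def tabS : List (List ℕ) :=
  [[1, 2, 4, 5, 0, 0, 0, 0, 0, 0, 0],
   [3, 4, 6, 0, 1, 0, 1, 0, 0, 0, 0],
   [4, 7, 8, 9, 2, 2, 2, 0, 0, 0, 0],
   [10, 6, 11, 1, 3, 1, 3, 0, 1, 0, 1],
   [6, 8, 12, 2, 4, 2, 0, 0, 0, 0, 0],
   [0, 9, 2, 13, 5, 0, 0, 0, 0, 0, 0],
   [11, 12, 14, 4, 6, 0, 1, 0, 1, 0, 0],
   [8, 15, 16, 15, 7, 7, 7, 2, 2, 2, 0],
   [12, 16, 17, 7, 8, 7, 2, 2, 2, 0, 0],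
   [2, 15, 7, 7, 7, 2, 2, 2, 0, 0, 0],
   [18, 11, 19, 3, 10, 3, 10, 1, 3, 1, 3],
   [19, 14, 20, 6, 11, 1, 3, 1, 3, 0, 1],
   [14, 17, 21, 8, 12, 2, 4, 2, 0, 0, 0],
   [5, 7, 7, 22, 13, 22, 0, 0, 0, 0, 0],
   [20, 21, 23, 12, 14, 4, 6, 0, 1, 0, 1],
   [16, 24, 25, 24, 15, 24, 15, 24, 7, 24, 2],
   [17, 25, 26, 25, 16, 24, 7, 24, 7, 24, 2],
   [21, 26, 27, 26, 17, 25, 8, 25, 2, 24, 2],
   [28, 19, 29, 20, 18, 18, 18, 18, 18, 18, 18],
   [29, 20, 30, 20, 19, 19, 19, 18, 18, 18, 18],
   [30, 23, 31, 23, 20, 20, 20, 19, 19, 19, 18],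
   [23, 27, 32, 27, 21, 26, 12, 26, 4, 25, 0],
   [24, 24, 24, 33, 22, 24, 22, 24, 0, 24, 0],
   [31, 32, 34, 32, 23, 32, 23, 32, 20, 32, 19],
   [25, 24, 25, 24, 24, 24, 24, 24, 24, 24, 24],
   [26, 25, 26, 24, 25, 24, 25, 24, 24, 24, 24],
   [27, 26, 27, 25, 26, 25, 26, 24, 25, 24, 25],
   [32, 27, 32, 26, 27, 26, 27, 25, 26, 25, 26],
   [28, 29, 29, 30, 28, 28, 28, 28, 28, 28, 28],
   [29, 30, 30, 30, 29, 29, 29, 28, 28, 28, 28],
   [30, 31, 31, 31, 30, 30, 30, 29, 29, 29, 28],
   [31, 34, 34, 34, 31, 34, 31, 34, 30, 34, 29],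
   [34, 32, 34, 32, 32, 32, 32, 32, 32, 32, 32],
   [24, 24, 24, 24, 24, 24, 24, 24, 24, 24, 24],
   [34, 34, 34, 34, 34, 34, 34, 34, 34, 34, 34]]

/-- Table of finalisations. -/
def tabF : List ℕ :=
  [0, 1, 6, 2, 3, 4, 4, 8, 5, 5, 2, 0, 6, 3, 6, 10, 7, 8, 2, 0, 3, 8, 5, 5, 10, 9, 10, 10, 0, 0, 3, 5, 10, 9, 10]

/-- `-1000` stands for an unavailable value. -/
def opt (x : ℤ) : Option ℤ := if x = -1000 then none else some x

/-- step of the accumulator (number of children in `U`, capped) -/
def stp (l : Bool) (q : Fin 3) (c : Bool) : Fin 3 :=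
  if c then (if l then 1 else (if q = 0 then 1 else 2)) else q

/-- gain of a vertex -/
def gn (l : Bool) (q : Fin 3) (p : Bool) : ℤ :=
  if l then (if q = 0 ∧ p = false then 1 else -4)
  else (if (q = 0 ∧ p = true) ∨ (q = 1 ∧ p = false) then 1 else -4)

/-- The scheme. -/
def A : DP Bool (Fin 3) (Fin 11) (Fin 35) where
  init := fun _ => 0
  step := stp
  gain := fun l q p => some (gn l q p)
  rgain := fun l q => some (gn l q false)
  W := fun t l p => opt ((tabW.getD t.val []).getD ((if l then 2 else 0) + (if p then 1 else 0)) (-1000))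
  Pp := fun π l q => opt ((tabP.getD π.val []).getD
    (if l then (if q = 0 then 0 else (if q = 1 then 1 else 5))
      else (if q = 0 then 2 else (if q = 1 then 3 else 4))) (-1000))
  p0 := 0
  pstep := fun π t => Fin.ofNat _ ((tabS.getD π.val []).getD t.val 0)
  fin := fun π => Fin.ofNat _ (tabF.getD π.val 0)

theorem initOK : A.InitOK := by
  have h : ∀ (l : Bool) (q : Fin 3),
      optAll (A.Pp A.p0 l q) (fun x => q = A.init l ∧ x ≤ 0) := by decide +kernel
  exact fun l q => optAll_iff.mp (h l q)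

theorem stepOK : A.StepOK := by
  have h : ∀ (π : Fin 35) (t : Fin 11) (l : Bool) (q' : Fin 3),
      optAll (A.Pp (A.pstep π t) l q') (fun x => ∃ (q : Fin 3) (c : Bool),
        A.step l q c = q' ∧ leAdd x (A.Pp π l q) (A.W t c l)) := by decide +kernel
  exact fun π t l q' => optAll_iff.mp (h π t l q')

theorem finOK : A.FinOK := by
  have h : ∀ (π : Fin 35) (l p : Bool),
      optAll (A.W (A.fin π) l p) (fun x => ∃ (q : Fin 3), leAdd x (A.Pp π l q) (A.gain l q p)) := by
    decide +kernel
  exact fun π l p => optAll_iff.mp (h π l p)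

theorem rootOK : A.RootOK 0 := by
  have h : ∀ (π : Fin 35), ∃ (l : Bool) (q : Fin 3),
    leAdd 0 (A.Pp π l q) (A.rgain l q) := by decide +kernel
  exact h

theorem fold_eq {V : Type} (l : Bool) (lab : V → Bool) (xs : List V) :
    (xs.foldl (fun q c => stp l q (lab c)) (0 : Fin 3)).val =
      min (if l then 1 else 2) ((xs.map (fun c => if lab c then 1 else 0)).sum) := by
  induction xs using List.reverseRecOn with
  | nil => simp
  | append_singleton xs a ih =>
    rw [List.foldl_append, List.foldl_cons, List.foldl_nil, List.map_append, List.sum_append,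
      List.map_cons, List.map_nil, List.sum_singleton]
    generalize xs.foldl (fun q c => stp l q (lab c)) (0 : Fin 3) = q at *
    generalize (xs.map (fun c => if lab c then 1 else 0)).sum = n at *
    have hq : ∀ (l c : Bool) (q : Fin 3), q.val ≤ (if l then 1 else 2) →
        (stp l q c).val = min (if l then 1 else 2) (q.val + if c then 1 else 0) := by decide
    rw [hq l (lab a) q (by rw [ih]; exact min_le_left _ _), ih]
    omega

theorem four_fifths {V : Type} [Fintype V] [DecidableEq V] (G : SimpleGraph V)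
    [DecidableRel G.Adj] (hG : G.IsTree) :
    4 * Fintype.card V ≤ 5 * espn G := by
  obtain ⟨r⟩ := hG.connected.nonempty
  obtain ⟨R, _⟩ := exists_rooting hG r
  obtain ⟨lab, g, h1, h2, h3⟩ := A.exists_labelling R initOK stepOK finOK rootOK
  let U : Finset V := Finset.univ.filter (fun v => lab v = true)
  have hU : ∀ v, v ∈ U ↔ lab v = true := by intro v; simp [U]
  have hcard : ∀ v, (G.neighborFinset v ∩ U).card =
      ((R.children v).toList.map (fun c => if lab c then 1 else 0)).sum +
      (if v ≠ R.root ∧ lab (R.par v) = true then 1 else 0) := by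
    intro v
    have := R.card_nbr U v
    simp only [hU] at this
    rw [Finset.sum_map_toList]
    exact this
  have hacc : ∀ v, (A.acc R lab v).val = min (if lab v then 1 else 2)
      ((R.children v).toList.map (fun c => if lab c then 1 else 0)).sum := by
    intro v
    exact fold_eq (lab v) lab _
  have hg : ∀ v, g v ≤ 5 * ((if (v ∉ U ∧ (G.neighborFinset v ∩ U).card = 1) then 1 else 0) +
      (if (v ∈ U ∧ (G.neighborFinset v ∩ U).card = 0) then 1 else 0)) - 4 := by
    intro v
    have e1 := hcard v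
    have e2 := hacc v
    have e3 : g v = gn (lab v) (A.acc R lab v) (if v ≠ R.root ∧ lab (R.par v) = true then true
        else false) := by
      by_cases hv : v = R.root
      · subst hv
        have : gn (lab R.root) (A.acc R lab R.root) false = g R.root := Option.some.inj h2
        rw [← this]; simp
      · have := Option.some.inj (h1 v hv)
        rw [← this]
        cases h : lab (R.par v) <;> simp [hv]
    generalize ((R.children v).toList.map (fun c => if lab c then 1 else 0)).sum = n at *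
    generalize A.acc R lab v = q at *
    simp only [e3, hU v, e1]
    have hq0 : q = 0 ↔ q.val = 0 := by rw [Fin.ext_iff]; rfl
    have hq1 : q = 1 ↔ q.val = 1 := by rw [Fin.ext_iff]; rfl
    by_cases hp : v ≠ R.root ∧ lab (R.par v) = true
    · simp only [if_pos hp]
      cases hl : lab v
      · simp only [hl, gn, hq0, hq1, e2]
        by_cases hn : n = 0
        · simp [hn]
        · simp [hn]
      · simp only [hl, gn, hq0, hq1, e2]
        simp
    · simp only [if_neg hp]
      cases hl : lab v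
      · simp only [hl, gn, hq0, hq1, e2]
        by_cases hn : n = 1
        · simp [hn]
        · by_cases hn2 : n = 0
          · simp [hn2]
          · have : ¬ (min 2 n = 1) := by omega
            simp [hn, this]
      · simp only [hl, gn, hq0, hq1, e2]
        by_cases hn : n = 0
        · simp [hn]
        · simp [hn]
  have hsum : (0 : ℤ) ≤ ∑ v, (5 * ((if (v ∉ U ∧ (G.neighborFinset v ∩ U).card = 1) then 1 else 0) +
      (if (v ∈ U ∧ (G.neighborFinset v ∩ U).card = 0) then 1 else 0)) - 4) :=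
    h3.trans (Finset.sum_le_sum (fun v _ => hg v))
  have hcnt : (∑ v, (5 * ((if (v ∉ U ∧ (G.neighborFinset v ∩ U).card = 1) then 1 else 0) +
      (if (v ∈ U ∧ (G.neighborFinset v ∩ U).card = 0) then 1 else 0)) - 4) : ℤ) =
      5 * (espnOf G U : ℤ) - 4 * Fintype.card V := by
    rw [Finset.sum_sub_distrib, ← Finset.mul_sum, Finset.sum_add_distrib]
    unfold espnOf
    rw [Finset.card_filter, Finset.card_filter]
    push_cast
    simp only [Finset.sum_const, Finset.card_univ, nsmul_eq_mul]
    ring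
  have hle : espnOf G U ≤ espn G := Finset.le_sup (f := fun U => espnOf G U) (Finset.mem_univ U)
  rw [hcnt] at hsum
  have : (4 * Fintype.card V : ℤ) ≤ 5 * espnOf G U := by linarith
  have h4 : 4 * Fintype.card V ≤ 5 * espnOf G U := by exact_mod_cast this
  omega

/-- Parents in the five-vertex example. -/
def par5 (v : Fin 5) : Fin 5 := if v = 2 then 1 else 0

/-- The five-vertex example: the tree with edges `01`, `12`, `03`, `04`. -/
def T5 : SimpleGraph (Fin 5) where
  Adj u v := (u ≠ 0 ∧ par5 u = v) ∨ (v ≠ 0 ∧ par5 v = u)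
  symm := ⟨fun _ _ h => h.symm⟩
  loopless := ⟨by decide⟩

instance : DecidableRel T5.Adj := fun u v => by unfold T5; infer_instance

theorem T5_isTree : T5.IsTree := by
  let R : Rooting T5 := ⟨0, par5, fun v => v.val, by decide, fun _ _ => Iff.rfl⟩
  exact R.isTree

theorem T5_espn : espn T5 = 4 := by decide +kernel

/-- The largest constant `c` with `ESPN(T) ≥ c n(T)` for all trees `T` is `4/5`. -/
theorem result : IsGreatest {c : ℝ | ∀ (V : Type) [Fintype V] [DecidableEq V]
    (G : SimpleGraph V) [DecidableRel G.Adj], G.IsTree →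
      c * (Fintype.card V : ℝ) ≤ (espn G : ℝ)} (4 / 5) := by
  constructor
  · intro V _ _ G _ hG
    have h : ((4 * Fintype.card V : ℕ) : ℝ) ≤ ((5 * espn G : ℕ) : ℝ) := by
      exact_mod_cast four_fifths G hG
    push_cast at h
    linarith
  · intro c hc
    have h := hc (Fin 5) T5 T5_isTree
    rw [T5_espn, Fintype.card_fin] at h
    push_cast at h
    linarith

end Pool.Agent.Results.MP_0d27c8_co.FourFifths
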